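import Mathlib
import Pool.Agent.Helper68.LogCapDef
import Pool.Agent.Helper68.Res

namespace Pool.Agent.Results.MP_42a974_an.SymmetryBroken

open Pool.Agent.Helper68.LC

/-- Symmetry is broken in dimensions three and four: for `n = 3` and for `n = 4` there is a compact
set of diameter `2` in `n`-dimensional Euclidean space whose logarithmic capacity is strictly larger
than that of the closed unit ball. -/
theorem result : ∀ n : ℕ, n = 3 ∨ n = 4 → ∃ K : Set (EuclideanSpace ℝ (Fin n)),
    IsCompact K ∧ Metric.diam K = 2 ∧
      logCap (Metric.closedBall (0 : EuclideanSpace ℝ (Fin n)) 1) < logCap K := by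
  rintro n (rfl | rfl)
  · exact exists_three
  · exact exists_four

end Pool.Agent.Results.MP_42a974_an.SymmetryBroken
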